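import Pool.Agent.H749.GMain

/-!
# Powers of the twists along stable spherical objects generate a free group

Let `σ` be a slicing of a `k`-linear triangulated category and let `A i` be 2-spherical objects,
semistable of phase `φ i`, such that two different ones are never orthogonal (some
`Hom(A i, A j⟦n⟧)` is non-zero), while `Hom(A i, A j⟦n⟧) = 0` when the phases `φ i` and `φ j + n`
are equal (which holds for stable objects). Then the third powers of the spherical twists along
the `A i` freely generate a free group of autoequivalences. The square of the twist along `A i`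
suffices when every other `A j` has morphisms to `A i` in two different degrees or has, up to a
shift, the phase of `A i`.
-/

set_option autoImplicit false
set_option linter.unusedSectionVars false

open CategoryTheory CategoryTheory.Limits CategoryTheory.Pretriangulated
open Pool.Agent.H749

namespace Pool.Agent.Results.MP_a8252b_ag.PowersFree

universe v u w t

variable {C : Type u} [Category.{v} C] [Preadditive C] [HasZeroObject C] [HasShift C ℤ]
  [∀ n : ℤ, (shiftFunctor C n).Additive] [Pretriangulated C] [IsTriangulated C]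
variable {k : Type w} [Field k] [Linear k C] [∀ n : ℤ, (shiftFunctor C n).Linear k]
variable {I : Type t}

/-- Third powers (and often squares) of the twists along pairwise non-orthogonal stable spherical
objects of arbitrary phases are free generators: a word in these powers which takes every `A j`
to a shift of some `A l` is trivial. -/
theorem result (σ : Slicing C) (A : I → C) (φ : I → ℝ) (hA : ∀ i, σ.P (φ i) (A i))
    (hS : ∀ i, IsSpherical k (A i))
    (hstable : ∀ i j, i ≠ j → ∀ n : ℤ, φ i = φ j + n → ∀ f : A i ⟶ (A j)⟦n⟧, f = 0)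
    (hne : ∀ i j, i ≠ j → ∃ (n : ℤ) (f : A i ⟶ (A j)⟦n⟧), f ≠ 0)
    (T : I → (C ≌ C)) [∀ i, (T i).functor.CommShift ℤ] [∀ i, (T i).functor.IsTriangulated]
    [∀ i, (T i).functor.Linear k] (hT : ∀ i, IsTwist k (A i) (T i)) (N : I → ℕ)
    (hN : ∀ i, 3 ≤ N i ∨ (N i = 2 ∧ ∀ j, j ≠ i → (∃ n : ℤ, φ i = φ j + n) ∨
      ∃ n : ℤ, (∃ f : A i ⟶ (A j)⟦n⟧, f ≠ 0) ∧ ∃ f : A i ⟶ (A j)⟦n + 1⟧, f ≠ 0))
    [Nontrivial I] (x : FreeGroup I)
    (hx : ∀ j, ∃ (l : I) (q : ℤ),
      FreeGroup.lift (fun i => isoPerm (T i) ^ N i) x (cl (A j)) = cl ((A l)⟦q⟧)) : x = 1 := by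
  have hadd : ∀ i, (T i).functor.Additive := fun i => inferInstance
  have hG : GFam k σ A φ := ⟨hA, hS, hstable, hne⟩
  refine hG.free T hT N (fun i => ?_) x hx
  rcases hN i with h | ⟨h, h'⟩
  · exact ⟨by omega, Or.inl h⟩
  · exact ⟨by omega, Or.inr h'⟩

end Pool.Agent.Results.MP_a8252b_ag.PowersFree
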