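import Pool.Agent.H749.TwistPM

/-!
# Twists along spherical objects of one phase generate a right-angled Artin group

Let `S i` be 2-spherical objects of a `k`-linear triangulated category such that the morphisms
between two different ones live in degree one only, and let `e i j = dim Hom(S i, S j⟦1⟧)`. On a
projective K3 surface such families are exactly the families of `σ`-stable spherical objects of
one phase, for a stability condition `σ`. If no `e i j` is equal to one, then the only relations
between the spherical twists `T i` are the commutations `T i T j = T j T i` for `e i j = 0`; this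
holds already for the action on isomorphism classes of objects, and even for the action on the
objects `S j`, up to shifts and up to permutation of the `S j`.
-/

set_option autoImplicit false
set_option linter.unusedSectionVars false

open CategoryTheory CategoryTheory.Limits CategoryTheory.Pretriangulated
open Pool.Agent.H749

namespace Pool.Agent.Results.MP_a8252b_ag.TwistsRAAG

universe v u w t

variable {C : Type u} [Category.{v} C] [Preadditive C] [HasZeroObject C] [HasShift C ℤ]
  [∀ n : ℤ, (shiftFunctor C n).Additive] [Pretriangulated C] [IsTriangulated C]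
variable {k : Type w} [Field k] [Linear k C] [∀ n : ℤ, (shiftFunctor C n).Linear k]
variable {I : Type t}

theorem adm_half {S : I → C} (h1 : ∀ i j, ee k S i j ≠ 1) :
    Adm k S (fun _ => 1) (fun _ => (1 / 2 : ℝ)) where
  pos _ := by norm_num
  one _ := le_rfl
  two i j h := by
    have h2 : 2 ≤ ee k S i j := by
      have := h1 i j
      omega
    have h3 : (2 : ℝ) ≤ ee k S i j := by exact_mod_cast h2
    nlinarith
  ineq i j h := by
    have h2 : 2 ≤ ee k S i j := by
      have := h1 i j
      omega
    have h3 : (2 : ℝ) ≤ ee k S i j := by exact_mod_cast h2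
    push_cast
    nlinarith

/-- The relations between spherical twists along 2-spherical objects `S i` of one phase, no two
of which have a one-dimensional `Hom(S i, S j⟦1⟧)`. -/
theorem result (S : I → C) (hS : ∀ i, IsSpherical k (S i))
    (hdeg : ∀ i j, i ≠ j → ∀ m : ℤ, m ≠ 1 → ∀ f : S i ⟶ (S j)⟦m⟧, f = 0)
    (hone : ∀ i j, Module.finrank k (S i ⟶ (S j)⟦(1 : ℤ)⟧) ≠ 1)
    (T : I → (C ≌ C)) [∀ i, (T i).functor.CommShift ℤ] [∀ i, (T i).functor.IsTriangulated]
    [∀ i, (T i).functor.Linear k] (hT : ∀ i, IsTwist k (S i) (T i)) (x : FreeGroup I) :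
    List.TFAE [
      x ∈ Subgroup.normalClosure
        (relators fun i j : I => Module.finrank k (S i ⟶ (S j)⟦(1 : ℤ)⟧) = 0),
      FreeGroup.lift (fun i => isoPerm (T i)) x = 1,
      ∀ j, ∃ (l : I) (q : ℤ), FreeGroup.lift (fun i => isoPerm (T i)) x (cl (S j)) =
          cl ((S l)⟦q⟧) ∧
        ((∀ i, i ≠ j → Module.finrank k (S i ⟶ (S j)⟦(1 : ℤ)⟧) = 0) → l = j ∧ q = 0)] := by
  classical
  have hc : Conf k S := ⟨hS, hdeg⟩
  have hadd : ∀ i, (T i).functor.Additive := fun i => inferInstance
  have hP : ∀ i, PermTw k S i (isoPerm (T i)) := fun i => hc.permTw (T i) (hT i)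
  have hrel : ∀ y ∈ relators (fun i j : I => Module.finrank k (S i ⟶ (S j)⟦(1 : ℤ)⟧) = 0),
      FreeGroup.lift (fun i => isoPerm (T i)) y = 1 := by
    rintro y ⟨i, j, hij, h0, rfl⟩
    rw [map_mul, map_mul, map_mul, map_inv, map_inv, FreeGroup.lift_apply_of,
      FreeGroup.lift_apply_of, mul_inv_eq_one, mul_inv_eq_iff_eq_mul]
    refine Equiv.ext fun F => ?_
    induction F using Quotient.inductionOn with
    | h F => exact Quotient.sound (hc.comm hij h0 (hT i) (hT j) F)
  have h12 : x ∈ Subgroup.normalClosure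
      (relators fun i j : I => Module.finrank k (S i ⟶ (S j)⟦(1 : ℤ)⟧) = 0) →
      FreeGroup.lift (fun i => isoPerm (T i)) x = 1 := by
    intro h
    have h1 : Subgroup.normalClosure (relators fun i j : I =>
        Module.finrank k (S i ⟶ (S j)⟦(1 : ℤ)⟧) = 0) ≤
          (FreeGroup.lift (fun i => isoPerm (T i))).ker :=
      Subgroup.normalClosure_le_normal fun y hy => hrel y hy
    exact h1 h
  have h23 : FreeGroup.lift (fun i => isoPerm (T i)) x = 1 →
      ∀ j, ∃ (l : I) (q : ℤ), FreeGroup.lift (fun i => isoPerm (T i)) x (cl (S j)) =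
          cl ((S l)⟦q⟧) ∧
        ((∀ i, i ≠ j → Module.finrank k (S i ⟶ (S j)⟦(1 : ℤ)⟧) = 0) → l = j ∧ q = 0) := by
    intro h j
    refine ⟨j, 0, ?_, fun _ => ⟨rfl, rfl⟩⟩
    rw [h, Equiv.Perm.one_apply]
    exact cl_eq.2 ⟨(sh0 (S j)).symm⟩
  have h31 : (∀ j, ∃ (l : I) (q : ℤ), FreeGroup.lift (fun i => isoPerm (T i)) x (cl (S j)) =
          cl ((S l)⟦q⟧) ∧
        ((∀ i, i ≠ j → Module.finrank k (S i ⟶ (S j)⟦(1 : ℤ)⟧) = 0) → l = j ∧ q = 0)) →
      x ∈ Subgroup.normalClosure
        (relators fun i j : I => Module.finrank k (S i ⟶ (S j)⟦(1 : ℤ)⟧) = 0) := by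
    intro h
    obtain ⟨L, hL, hLx⟩ := exists_red'
      (c := fun i j : I => Module.finrank k (S i ⟶ (S j)⟦(1 : ℤ)⟧) = 0) x
    have h4 : FreeGroup.lift (fun i => isoPerm (T i)) (wd L) =
        FreeGroup.lift (fun i => isoPerm (T i)) x := hom_congr _ hrel hLx
    have hL' : L = [] := by
      refine hc.word_nil (adm_half hone) hP L hL fun j => ?_
      obtain ⟨l, q, h5, h6⟩ := h j
      refine ⟨l, q, ?_, fun h7 => h6 fun i hi => ?_⟩
      · rw [← h5, ← h4]
        have h11 : (fun i => isoPerm (T i) ^ 1) = fun i => isoPerm (T i) :=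
          funext fun i => pow_one _
        change FreeGroup.lift (fun i => isoPerm (T i) ^ 1) (wd L) (cl (S j)) = _
        rw [h11]
      · have h8 : ee k S i j = 0 := h7 i hi
        exact h8
    subst hL'
    have h9 : QuotientGroup.mk' (Subgroup.normalClosure (relators (fun i j : I =>
        Module.finrank k (S i ⟶ (S j)⟦(1 : ℤ)⟧) = 0))) x = 1 := by
      rw [← hLx]
      simp [wd]
    have h10 : x ∈ (QuotientGroup.mk' (Subgroup.normalClosure (relators (fun i j : I =>
        Module.finrank k (S i ⟶ (S j)⟦(1 : ℤ)⟧) = 0)))).ker := h9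
    rwa [QuotientGroup.ker_mk'] at h10
  tfae_have 1 → 2 := h12
  tfae_have 2 → 3 := h23
  tfae_have 3 → 1 := h31
  tfae_finish

end Pool.Agent.Results.MP_a8252b_ag.TwistsRAAG
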